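import Pool.Agent.Helper22_DEN2.Stmt

/-!
# API for the bracket `br`
-/

open scoped BigOperators

namespace Pool.Agent.DEN.Br

open Pool.Agent.DEN

section
variable {r : ℕ} {C : Matrix (Fin r) (Fin r) ℤ} {R : Type} [CommRing R]

/-- The root vector over any ring. -/
noncomputable def ev (β : Rt C) : LieV C R := by
  classical exact (0, fun γ => if γ = β then 1 else 0)

/-- The vector `h_β`. -/
def hv (β : Fin r → ℤ) : LieV C R := (fun i => ((β i : ℤ) : R), 0)

@[simp] theorem ev_fst (β : Rt C) : (ev β : LieV C R).1 = 0 := rfl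

theorem ev_snd_self (β : Rt C) : (ev β : LieV C R).2 β = 1 := by simp [ev]

theorem ev_snd_ne {β γ : Rt C} (h : γ ≠ β) : (ev β : LieV C R).2 γ = 0 := by simp [ev, h]

@[simp] theorem hv_snd (β : Fin r → ℤ) : (hv β : LieV C R).2 = 0 := rfl

@[simp] theorem hv_fst (β : Fin r → ℤ) (i : Fin r) : (hv β : LieV C R).1 i = ((β i : ℤ) : R) := rfl

theorem crd_ev_of_ne (β : Rt C) {x : Fin r → ℤ} (h : x ≠ β.1) : crd (ev β : LieV C R) x = 0 := by
  unfold crd
  split_ifs with h1
  · exact ev_snd_ne (fun h2 => h (by rw [← h2]))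
  · rfl

theorem crd_ev_self (β : Rt C) : crd (ev β : LieV C R) β.1 = 1 := by
  rw [crd_root, ev_snd_self]

theorem pr_ev (β : Rt C) (x : Fin r → ℤ) : pr (ev β : LieV C R) x = 0 := by
  simp [pr]

theorem pr_zero (x : Fin r → ℤ) : pr (0 : LieV C R) x = 0 := by
  simp [pr]

theorem pr_hv (β x : Fin r → ℤ) : pr (hv β : LieV C R) x = ((ip C β x : ℤ) : R) := by
  simp [pr, ip]

theorem crd_zero (x : Fin r → ℤ) : crd (0 : LieV C R) x = 0 := by
  unfold crd; split_ifs <;> simp

theorem crd_of_snd {v : LieV C R} (hv : v.2 = 0) (x : Fin r → ℤ) : crd v x = 0 := by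
  unfold crd; split_ifs <;> simp [hv]

theorem crd_neg (v : LieV C R) (β : Rt C) : crd v (-β.1) = v.2 β.neg := crd_root v β.neg

/-- Evaluate `crd` at a vector which is a root. -/
theorem crd_eq {v : LieV C R} {x : Fin r → ℤ} {γ : Rt C} (h : x = γ.1) : crd v x = v.2 γ := by
  subst h; exact crd_root v γ

theorem fin_rt (hC : SimplyLaced C) : Finite (Rt C) := H22.hRF r C hC

theorem pr_add_right (v : LieV C R) (x y : Fin r → ℤ) : pr v (x + y) = pr v x + pr v y := by
  simp only [pr, Pi.add_apply, Int.cast_add, mul_add, Finset.sum_add_distrib]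

theorem pr_neg_right (v : LieV C R) (x : Fin r → ℤ) : pr v (-x) = -pr v x := by
  simp only [pr, Pi.neg_apply, Int.cast_neg, mul_neg, Finset.sum_neg_distrib]

theorem pr_sub_right (v : LieV C R) (x y : Fin r → ℤ) : pr v (x - y) = pr v x - pr v y := by
  rw [sub_eq_add_neg, pr_add_right, pr_neg_right, sub_eq_add_neg]

theorem pr_zero_right (v : LieV C R) : pr v 0 = 0 := by
  simp [pr]

theorem br_fst (v w : LieV C R) (i : Fin r) :
    (br v w).1 i = -∑ᶠ μ : Rt C, v.2 μ * w.2 μ.neg * ((μ.1 i : ℤ) : R) := rfl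

theorem br_snd (v w : LieV C R) (γ : Rt C) :
    (br v w).2 γ = (∑ᶠ μ : Rt C, if ip C μ.1 γ.1 = 1 then
        ((eps C μ.1 (γ.1 - μ.1) : ℤ) : R) * v.2 μ * crd w (γ.1 - μ.1) else 0)
      + pr v γ.1 * w.2 γ - v.2 γ * pr w γ.1 := rfl

theorem br_add_left (hC : SimplyLaced C) (v v' w : LieV C R) :
    br (v + v') w = br v w + br v' w := by
  have := fin_rt hC
  refine Prod.ext ?_ ?_
  · funext i
    simp only [Prod.fst_add, Pi.add_apply, br_fst, Prod.snd_add, add_mul]
    rw [finsum_add_distrib (Set.toFinite _) (Set.toFinite _)]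
    ring
  · funext γ
    simp only [Prod.snd_add, Pi.add_apply, br_snd, pr_add]
    have : ∀ μ : Rt C, (if ip C μ.1 γ.1 = 1 then
        ((eps C μ.1 (γ.1 - μ.1) : ℤ) : R) * (v.2 μ + v'.2 μ) * crd w (γ.1 - μ.1) else 0) =
        (if ip C μ.1 γ.1 = 1 then
        ((eps C μ.1 (γ.1 - μ.1) : ℤ) : R) * v.2 μ * crd w (γ.1 - μ.1) else 0) +
        (if ip C μ.1 γ.1 = 1 then
        ((eps C μ.1 (γ.1 - μ.1) : ℤ) : R) * v'.2 μ * crd w (γ.1 - μ.1) else 0) := by
      intro μ; split_ifs
      · ring
      · simp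
    simp only [this]
    rw [finsum_add_distrib (Set.toFinite _) (Set.toFinite _)]
    ring

theorem br_add_right (hC : SimplyLaced C) (v w w' : LieV C R) :
    br v (w + w') = br v w + br v w' := by
  have := fin_rt hC
  refine Prod.ext ?_ ?_
  · funext i
    simp only [Prod.fst_add, Pi.add_apply, br_fst, Prod.snd_add, add_mul, mul_add]
    rw [finsum_add_distrib (Set.toFinite _) (Set.toFinite _)]
    ring
  · funext γ
    simp only [Prod.snd_add, Pi.add_apply, br_snd, pr_add, crd_add]
    have : ∀ μ : Rt C, (if ip C μ.1 γ.1 = 1 then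
        ((eps C μ.1 (γ.1 - μ.1) : ℤ) : R) * v.2 μ * (crd w (γ.1 - μ.1) + crd w' (γ.1 - μ.1))
          else 0) =
        (if ip C μ.1 γ.1 = 1 then
        ((eps C μ.1 (γ.1 - μ.1) : ℤ) : R) * v.2 μ * crd w (γ.1 - μ.1) else 0) +
        (if ip C μ.1 γ.1 = 1 then
        ((eps C μ.1 (γ.1 - μ.1) : ℤ) : R) * v.2 μ * crd w' (γ.1 - μ.1) else 0) := by
      intro μ; split_ifs
      · ring
      · simp
    simp only [this]
    rw [finsum_add_distrib (Set.toFinite _) (Set.toFinite _)]
    ring

theorem br_smul_left (c : R) (hC : SimplyLaced C) (v w : LieV C R) :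
    br (c • v) w = c • br v w := by
  have := fin_rt hC
  refine Prod.ext ?_ ?_
  · funext i
    simp only [Prod.smul_fst, Pi.smul_apply, br_fst, Prod.smul_snd, smul_eq_mul]
    rw [mul_neg, mul_finsum' _ _ (Set.toFinite _)]
    congr 1
    exact finsum_congr fun μ => by ring
  · funext γ
    simp only [Prod.smul_snd, Pi.smul_apply, br_snd, smul_eq_mul, pr_smul]
    rw [mul_sub, mul_add, mul_finsum' _ _ (Set.toFinite _)]
    congr 1
    · congr 1
      · exact finsum_congr fun μ => by split_ifs <;> ring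
      · ring
    · ring

theorem br_smul_right (c : R) (hC : SimplyLaced C) (v w : LieV C R) :
    br v (c • w) = c • br v w := by
  have := fin_rt hC
  refine Prod.ext ?_ ?_
  · funext i
    simp only [Prod.smul_fst, Pi.smul_apply, br_fst, Prod.smul_snd, smul_eq_mul]
    rw [mul_neg, mul_finsum' _ _ (Set.toFinite _)]
    congr 1
    exact finsum_congr fun μ => by ring
  · funext γ
    simp only [Prod.smul_snd, Pi.smul_apply, br_snd, smul_eq_mul, pr_smul, crd_smul]
    rw [mul_sub, mul_add, mul_finsum' _ _ (Set.toFinite _)]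
    congr 1
    · congr 1
      · exact finsum_congr fun μ => by split_ifs <;> ring
      · ring
    · ring

theorem br_zero_left (hC : SimplyLaced C) (w : LieV C R) : br 0 w = 0 := by
  have := br_smul_left (0 : R) hC 0 w
  simpa using this

theorem br_zero_right (hC : SimplyLaced C) (v : LieV C R) : br v 0 = 0 := by
  have := br_smul_right (0 : R) hC v 0
  simpa using this

theorem br_neg_left (hC : SimplyLaced C) (v w : LieV C R) : br (-v) w = -br v w := by
  have := br_smul_left (-1 : R) hC v w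
  simpa using this

theorem br_neg_right (hC : SimplyLaced C) (v w : LieV C R) : br v (-w) = -br v w := by
  have := br_smul_right (-1 : R) hC v w
  simpa using this

theorem br_sub_left (hC : SimplyLaced C) (v v' w : LieV C R) :
    br (v - v') w = br v w - br v' w := by
  rw [sub_eq_add_neg, br_add_left hC, br_neg_left hC, sub_eq_add_neg]

theorem br_sub_right (hC : SimplyLaced C) (v w w' : LieV C R) :
    br v (w - w') = br v w - br v w' := by
  rw [sub_eq_add_neg, br_add_right hC, br_neg_right hC, sub_eq_add_neg]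

/-- The bracket as a bilinear map. -/
noncomputable def brL (hC : SimplyLaced C) : LieV C R →ₗ[R] LieV C R →ₗ[R] LieV C R :=
  LinearMap.mk₂ R br (br_add_left hC) (fun c v w => br_smul_left c hC v w) (br_add_right hC)
    (fun c v w => br_smul_right c hC v w)

@[simp] theorem brL_apply (hC : SimplyLaced C) (v w : LieV C R) : brL hC v w = br v w := rfl

/-! ## Brackets with a root vector -/

theorem br_ev_fst (β : Rt C) (w : LieV C R) (i : Fin r) :
    (br (ev β) w).1 i = -(w.2 β.neg * ((β.1 i : ℤ) : R)) := by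
  rw [br_fst, finsum_eq_single _ β]
  · rw [ev_snd_self, one_mul]
  · intro μ h
    rw [ev_snd_ne h]; ring

theorem br_ev_snd (β : Rt C) (w : LieV C R) (γ : Rt C) :
    (br (ev β) w).2 γ = (if ip C β.1 γ.1 = 1 then
        ((eps C β.1 (γ.1 - β.1) : ℤ) : R) * crd w (γ.1 - β.1) else 0)
      - (ev β : LieV C R).2 γ * pr w γ.1 := by
  rw [br_snd, finsum_eq_single _ β]
  · rw [ev_snd_self, mul_one, pr_ev]
    ring
  · intro μ h
    rw [ev_snd_ne h]; split_ifs <;> ring

theorem br_ev_snd_self (β : Rt C) (w : LieV C R) : (br (ev β) w).2 β = -pr w β.1 := by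
  rw [br_ev_snd, ev_snd_self, if_neg, one_mul, zero_sub]
  rw [β.2]; norm_num

theorem ne_of_ip_one {β γ : Rt C} (h : ip C β.1 γ.1 = 1) : γ ≠ β := by
  rintro rfl
  rw [γ.2] at h; norm_num at h

theorem br_ev_snd_one (β : Rt C) (w : LieV C R) {γ : Rt C} (h : ip C β.1 γ.1 = 1) :
    (br (ev β) w).2 γ = ((eps C β.1 (γ.1 - β.1) : ℤ) : R) * crd w (γ.1 - β.1) := by
  rw [br_ev_snd, if_pos h, ev_snd_ne (ne_of_ip_one h), zero_mul, sub_zero]

theorem br_ev_snd_other (β : Rt C) (w : LieV C R) {γ : Rt C} (h : γ ≠ β)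
    (h1 : ip C β.1 γ.1 ≠ 1) : (br (ev β) w).2 γ = 0 := by
  rw [br_ev_snd, if_neg h1, ev_snd_ne h, zero_mul, sub_zero]

/-- The root element in terms of the bracket. -/
theorem rootMap_eq (β : Rt C) (a : R) (v : LieV C R) :
    rootMap β a v = v + a • br (ev β) v + (a ^ 2 * v.2 β.neg) • (ev β : LieV C R) := by
  refine Prod.ext ?_ ?_
  · funext i
    simp only [rootMap_fst, Prod.fst_add, Pi.add_apply, Prod.smul_fst, Pi.smul_apply, br_ev_fst,
      smul_eq_mul, ev_fst, Pi.zero_apply]
    ring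
  · funext γ
    by_cases h1 : γ = β
    · subst h1
      simp only [rootMap_snd_self, Prod.snd_add, Pi.add_apply, Prod.smul_snd, Pi.smul_apply,
        br_ev_snd_self, smul_eq_mul, ev_snd_self]
      ring
    · by_cases h2 : ip C β.1 γ.1 = 1
      · simp only [rootMap_snd_one _ _ _ _ h2, Prod.snd_add, Pi.add_apply, Prod.smul_snd,
          Pi.smul_apply, br_ev_snd_one _ _ h2, smul_eq_mul, ev_snd_ne h1]
        ring
      · simp only [rootMap_snd_other _ _ _ _ h1 h2, Prod.snd_add, Pi.add_apply, Prod.smul_snd,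
          Pi.smul_apply, br_ev_snd_other _ _ h1 h2, smul_eq_mul, ev_snd_ne h1]
        ring

/-! ## Brackets of basis vectors -/

/-- `[e_β, h] = -(h, β) e_β` for `h` in the Cartan part. -/
theorem br_ev_h (β : Rt C) {w : LieV C R} (hw : w.2 = 0) :
    br (ev β) w = (-pr w β.1) • (ev β : LieV C R) := by
  refine Prod.ext ?_ ?_
  · funext i
    simp [br_ev_fst, hw]
  · funext γ
    by_cases h1 : γ = β
    · subst h1
      simp only [br_ev_snd_self, Prod.smul_snd, Pi.smul_apply, ev_snd_self, smul_eq_mul, mul_one]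
    · by_cases h2 : ip C β.1 γ.1 = 1
      · simp only [br_ev_snd_one _ _ h2, Prod.smul_snd, Pi.smul_apply, ev_snd_ne h1, smul_eq_mul,
          mul_zero, crd_of_snd hw]
      · simp only [br_ev_snd_other _ _ h1 h2, Prod.smul_snd, Pi.smul_apply, ev_snd_ne h1,
          smul_eq_mul, mul_zero]

/-- `[h, w]` for `h` in the Cartan part. -/
theorem br_h (hC : SimplyLaced C) {v : LieV C R} (hv : v.2 = 0) (w : LieV C R) :
    br v w = (0, fun γ => pr v γ.1 * w.2 γ) := by
  refine Prod.ext ?_ ?_
  · funext i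
    simp [br_fst, hv]
  · funext γ
    simp [br_snd, hv]

/-- `[h, e_β] = (h, β) e_β`. -/
theorem br_h_ev (hC : SimplyLaced C) {v : LieV C R} (hv : v.2 = 0) (β : Rt C) :
    br v (ev β) = (pr v β.1) • (ev β : LieV C R) := by
  rw [br_h hC hv]
  refine Prod.ext ?_ ?_
  · funext i
    simp
  · funext γ
    by_cases h1 : γ = β
    · subst h1; simp
    · simp [ev_snd_ne h1]

theorem br_h_h (hC : SimplyLaced C) {v w : LieV C R} (hv : v.2 = 0) (hw : w.2 = 0) :
    br v w = 0 := by
  rw [br_h hC hv]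
  refine Prod.ext ?_ ?_
  · funext i
    simp
  · funext γ
    simp [hw]

/-- `[e_β, e_{-β}] = -h_β`. -/
theorem br_ev_neg (hC : SimplyLaced C) (β : Rt C) :
    br (ev β) (ev β.neg) = -(hv β.1 : LieV C R) := by
  refine Prod.ext ?_ ?_
  · funext i
    simp only [br_ev_fst, ev_snd_self, one_mul, Prod.fst_neg, Pi.neg_apply, hv_fst]
  · funext γ
    simp only [Prod.snd_neg, hv_snd, neg_zero, Pi.zero_apply]
    by_cases h1 : γ = β
    · subst h1
      rw [br_ev_snd_self, pr_ev, neg_zero]
    · by_cases h2 : ip C β.1 γ.1 = 1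
      · rw [br_ev_snd_one _ _ h2, crd_ev_of_ne, mul_zero]
        intro h3
        have h4 := congrArg (fun x => ip C β.1 x) h3
        simp only [Rt.neg_val, ip_sub_right, ip_neg_right, h2, β.2] at h4
        norm_num at h4
      · rw [br_ev_snd_other _ _ h1 h2]

/-- `[e_β, e_γ] = ε(β, γ) e_{β + γ}` if `(β, γ) = -1`. -/
theorem br_ev_add (hC : SimplyLaced C) {β γ δ : Rt C} (h : ip C β.1 γ.1 = -1)
    (hδ : δ.1 = β.1 + γ.1) :
    br (ev β) (ev γ) = ((eps C β.1 γ.1 : ℤ) : R) • (ev δ : LieV C R) := by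
  have h5 : β.neg ≠ γ := by
    rintro rfl
    rw [Rt.neg_val, ip_neg_right, β.2] at h; norm_num at h
  refine Prod.ext ?_ ?_
  · funext i
    simp only [br_ev_fst, Prod.smul_fst, ev_fst, smul_zero, Pi.zero_apply, ev_snd_ne h5, zero_mul,
      neg_zero]
  · funext μ
    simp only [Prod.smul_snd, Pi.smul_apply, smul_eq_mul]
    by_cases h1 : μ = β
    · subst h1
      have : μ ≠ δ := by
        rintro rfl
        have h4 := congrArg (fun x => ip C γ.1 x) hδ
        simp only [ip_add_right, γ.2] at h4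
        norm_num at h4
      rw [br_ev_snd_self, pr_ev, neg_zero, ev_snd_ne this, mul_zero]
    · by_cases h3 : μ = δ
      · subst h3
        have h2 : ip C β.1 μ.1 = 1 := by rw [hδ, ip_add_right, β.2, h]; norm_num
        have h6 : μ.1 - β.1 = γ.1 := by rw [hδ]; abel
        rw [br_ev_snd_one _ _ h2, h6, crd_ev_self, ev_snd_self]
      · rw [ev_snd_ne h3, mul_zero]
        by_cases h2 : ip C β.1 μ.1 = 1
        · rw [br_ev_snd_one _ _ h2, crd_ev_of_ne, mul_zero]
          intro h4
          exact h3 (Subtype.ext (by rw [hδ, ← h4]; abel))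
        · rw [br_ev_snd_other _ _ h1 h2]

/-- `[e_β, e_γ] = 0` if `(β, γ) ≥ 0`. -/
theorem br_ev_nonneg (hC : SimplyLaced C) {β γ : Rt C} (h : 0 ≤ ip C β.1 γ.1) :
    br (ev β) (ev γ) = (0 : LieV C R) := by
  have h5 : β.neg ≠ γ := by
    rintro rfl
    rw [Rt.neg_val, ip_neg_right, β.2] at h; norm_num at h
  refine Prod.ext ?_ ?_
  · funext i
    simp only [br_ev_fst, ev_snd_ne h5, zero_mul, neg_zero, Prod.fst_zero, Pi.zero_apply]
  · funext μ
    simp only [Prod.snd_zero, Pi.zero_apply]
    by_cases h1 : μ = β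
    · subst h1
      rw [br_ev_snd_self, pr_ev, neg_zero]
    · by_cases h2 : ip C β.1 μ.1 = 1
      · rw [br_ev_snd_one _ _ h2, crd_ev_of_ne, mul_zero]
        intro h4
        have h6 := congrArg (fun x => ip C β.1 x) h4
        simp only [ip_sub_right, h2, β.2] at h6
        omega
      · rw [br_ev_snd_other _ _ h1 h2]

/-- The four cases. -/
theorem ip_cases (hC : SimplyLaced C) (β γ : Rt C) :
    0 ≤ ip C β.1 γ.1 ∨ ip C β.1 γ.1 = -1 ∨ γ = β.neg := by
  have h := hC.ip_bound β γ
  by_cases h0 : 0 ≤ ip C β.1 γ.1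
  · exact Or.inl h0
  · by_cases h1 : ip C β.1 γ.1 = -1
    · exact Or.inr (Or.inl h1)
    · exact Or.inr (Or.inr (hC.ip_eq_neg_two (by omega)))

/-- The sum of two roots with `(β, γ) = -1`, as a root. -/
def addR (hC : SimplyLaced C) {β γ : Rt C} (h : ip C β.1 γ.1 = -1) : Rt C :=
  ⟨β.1 + γ.1, hC.ip_add_self h⟩

@[simp] theorem addR_val (hC : SimplyLaced C) {β γ : Rt C} (h : ip C β.1 γ.1 = -1) :
    (addR hC h).1 = β.1 + γ.1 := rfl

/-- Linear induction on a vector. -/
theorem lie_ind (hC : SimplyLaced C) {p : LieV C R → Prop}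
    (hadd : ∀ v w, p v → p w → p (v + w)) (hsmul : ∀ (c : R) v, p v → p (c • v))
    (hh : ∀ v : LieV C R, v.2 = 0 → p v) (he : ∀ γ : Rt C, p (ev γ)) (v : LieV C R) : p v := by
  classical
  have := fin_rt hC
  have := Fintype.ofFinite (Rt C)
  have h1 : v = ((v.1, 0) : LieV C R) + ∑ γ : Rt C, v.2 γ • (ev γ : LieV C R) := by
    refine Prod.ext ?_ ?_
    · simp [Prod.fst_sum]
    · funext δ
      simp only [Prod.snd_add, Pi.add_apply, Pi.zero_apply, zero_add, Prod.snd_sum,
        Finset.sum_apply, Prod.smul_snd, Pi.smul_apply, smul_eq_mul]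
      rw [Finset.sum_eq_single δ]
      · rw [ev_snd_self, mul_one]
      · intro b _ hb
        rw [ev_snd_ne hb.symm, mul_zero]
      · intro h; exact absurd (Finset.mem_univ _) h
  rw [h1]
  apply hadd _ _ (hh _ rfl)
  have h0 : p 0 := hh 0 rfl
  generalize (Finset.univ : Finset (Rt C)) = s
  induction s using Finset.induction_on with
  | empty => simpa using h0
  | insert a s ha ih =>
    rw [Finset.sum_insert ha]
    exact hadd _ _ (hsmul _ _ (he a)) ih

/-- Antisymmetry. -/
theorem br_swap (hC : SimplyLaced C) (v w : LieV C R) : br w v = -br v w := by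
  have hsw : ∀ (β : Rt C) (w : LieV C R), br w (ev β) = -br (ev β) w := by
    intro β w
    refine lie_ind hC (p := fun w => br w (ev β) = -br (ev β) w) ?_ ?_ ?_ ?_ w
    · intro v w h1 h2
      rw [br_add_left hC, br_add_right hC, h1, h2]; abel
    · intro c v h1
      rw [br_smul_left c hC, br_smul_right c hC, h1, smul_neg]
    · intro v hv
      rw [br_h_ev hC hv, br_ev_h β hv, neg_smul, neg_neg]
    · intro γ
      rcases ip_cases hC β γ with h | h | h
      · rw [br_ev_nonneg hC h, br_ev_nonneg hC (by rw [hC.ip_comm]; exact h), neg_zero]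
      · have h' : ip C γ.1 β.1 = -1 := by rw [hC.ip_comm]; exact h
        rw [br_ev_add hC h (δ := addR hC h) rfl,
          br_ev_add hC h' (δ := addR hC h) (by rw [addR_val, add_comm]), ← neg_smul]
        congr 1
        have h3 := hC.eps_swap β.1 γ.1
        rw [h, if_neg (by decide)] at h3
        have h4 : eps C γ.1 β.1 = -eps C β.1 γ.1 := by
          rcases eps_cases (C := C) β.1 γ.1 with h1 | h1 <;> rw [h1] at h3 ⊢ <;> linarith
        rw [h4]; push_cast; ring
      · subst h
        rw [br_ev_neg hC β]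
        have := br_ev_neg (R := R) hC β.neg
        rw [Rt.neg_neg] at this
        rw [this]
        refine Prod.ext ?_ ?_
        · funext i
          simp
        · simp
  refine lie_ind hC (p := fun v => br w v = -br v w) ?_ ?_ ?_ ?_ v
  · intro v w h1 h2
    rw [br_add_left hC, br_add_right hC, h1, h2]; abel
  · intro c v h1
    rw [br_smul_left c hC, br_smul_right c hC, h1, smul_neg]
  · intro v hv
    refine lie_ind hC (p := fun w => br w v = -br v w) ?_ ?_ ?_ ?_ w
    · intro v w h1 h2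
      rw [br_add_left hC, br_add_right hC, h1, h2]; abel
    · intro c v h1
      rw [br_smul_left c hC, br_smul_right c hC, h1, smul_neg]
    · intro w hw
      rw [br_h_h hC hw hv, br_h_h hC hv hw, neg_zero]
    · intro γ
      have := hsw γ v
      rw [this, neg_neg]
  · intro γ
    exact hsw γ w

end

section
variable {r : ℕ} {C : Matrix (Fin r) (Fin r) ℤ} {K : Type} [Field K]

theorem EE_eq (β : Rt C) : (EE β : LieV C (FF K)) = ev β := by
  unfold EE ev
  rfl

end

end Pool.Agent.DEN.Br
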