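import Pool.Agent.Helper93_DEN2.Ell
import Pool.Agent.Helper93_DEN2.Chr
import Pool.Agent.Helper25_DEN2.Loc
import Pool.Agent.Helper18_DEN2.Eq2
import Pool.Agent.Helper63_DEN2.Fam
import Pool.Agent.Helper63_DEN2.Rtc
import Pool.Agent.Helper54_DEN2.Fdm
import Pool.Agent.Helper54_DEN2.Low
import Pool.Agent.Helper42_DEN2.Fre
import Pool.Agent.Helper42_DEN2.Idx
import Pool.Agent.Helper48_DEN2.Gens
import Pool.Agent.Helper2_DEN2.Jgr
import Pool.Agent.Helper2_DEN2.Upss
import Pool.Agent.Helper22_DEN2.Brus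

open scoped BigOperators

namespace Pool.Agent.DEN.H222

open Pool.Agent.DEN

theorem hEqv : EqvStmt := H182.eqv
theorem hLoc : LocStmt := H252.locThm
theorem hGenS : GenSStmt := H482.gens
theorem hUpsS : UpsSStmt := H2x2.upss
theorem hJgr : JgrStmt := H2x2.jgr hEqv
theorem hRtc : RtcStmt := H632.rtc H22.hRF H22.hRS
theorem hCsp : CspStmt := H252.csp
theorem hFre : FreStmt := H422.fre
theorem hFam : FamStmt := H632.fam
theorem hIdx : IdxStmt := H422.idx
theorem hFdm : FdmStmt := H542.fdm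

theorem hBruS : BruSStmt := brus hGenS hUpsS hJgr hLoc
theorem hEll : EllStmt := H932.ell hBruS hRtc hLoc hJgr
theorem hChr : ChrStmt := H932.chr hEll hEqv hLoc hRtc
theorem hLow : LowStmt := H542.low hChr hCsp hFre hFam hIdx hFdm

end Pool.Agent.DEN.H222
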