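import Pool.Agent.Helper22_DEN2.Stmt

/-!
# BRUS: Bruhat decomposition over the local ring, modulo `J`
-/

open scoped BigOperators

namespace Pool.Agent.DEN.H222

open Pool.Agent.DEN Pool.Agent.DEN.H67

section
variable {r : ℕ} {C : Matrix (Fin r) (Fin r) ℤ} {K : Type} [Field K]

/-- The reflection in a root, on the lattice. -/
def rfA (hC : SimplyLaced C) (β : Rt C) : (Fin r → ℤ) ≃+ (Fin r → ℤ) where
  toFun x := x - ip C β.1 x • β.1
  invFun x := x - ip C β.1 x • β.1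
  left_inv x := by
    show x - ip C β.1 x • β.1 - ip C β.1 (x - ip C β.1 x • β.1) • β.1 = x
    rw [ip_sub_right, ip_smul_right, β.2]
    module
  right_inv x := by
    show x - ip C β.1 x • β.1 - ip C β.1 (x - ip C β.1 x • β.1) • β.1 = x
    rw [ip_sub_right, ip_smul_right, β.2]
    module
  map_add' x y := by
    rw [ip_add_right]
    module

theorem ms_one (hC : SimplyLaced C) (S : Subring (FF K)) : MonoS hC S (1 : grp C K) := by
  have h1 : (1 : FF K) ≠ 0 ∧ (1 : FF K) ∈ S ∧ (1 : FF K)⁻¹ ∈ S :=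
    ⟨one_ne_zero, one_mem _, by rw [inv_one]; exact one_mem _⟩
  refine ⟨AddEquiv.refl _, Equiv.refl _, fun _ => 1, fun _ => 1, fun β => rfl, fun _ => h1,
    fun _ => h1, fun β a => ?_, fun v β => ?_, fun v hv => hv⟩
  · rw [one_mul, inv_one, mul_one, one_mul]
    rfl
  · rw [one_mul]
    rfl

theorem un_mul {S : Subring (FF K)} {a b : FF K} (ha : a ≠ 0 ∧ a ∈ S ∧ a⁻¹ ∈ S)
    (hb : b ≠ 0 ∧ b ∈ S ∧ b⁻¹ ∈ S) : a * b ≠ 0 ∧ a * b ∈ S ∧ (a * b)⁻¹ ∈ S :=
  ⟨mul_ne_zero ha.1 hb.1, mul_mem ha.2.1 hb.2.1, by rw [mul_inv]; exact mul_mem ha.2.2 hb.2.2⟩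

theorem un_inv {S : Subring (FF K)} {a : FF K} (ha : a ≠ 0 ∧ a ∈ S ∧ a⁻¹ ∈ S) :
    a⁻¹ ≠ 0 ∧ a⁻¹ ∈ S ∧ a⁻¹⁻¹ ∈ S :=
  ⟨inv_ne_zero ha.1, ha.2.2, by rw [inv_inv]; exact ha.2.1⟩

theorem ms_mul (hC : SimplyLaced C) {S : Subring (FF K)} {n m : grp C K} (hn : MonoS hC S n)
    (hm : MonoS hC S m) : MonoS hC S (n * m) := by
  obtain ⟨σ, s, c, d, h0, h1, h2, h3, h4, h5⟩ := hn
  obtain ⟨σ', s', c', d', h0', h1', h2', h3', h4', h5'⟩ := hm
  refine ⟨σ'.trans σ, s'.trans s, fun β => c (s' β) * c' β, fun β => d (s' β) * d' β,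
    fun β => ?_, fun β => un_mul (h1 _) (h1' _), fun β => un_mul (h2 _) (h2' _),
    fun β a => ?_, fun v β => ?_, fun v hv => h5 _ (h5' _ hv)⟩
  · show (s (s' β)).1 = σ (σ' β.1)
    rw [h0, h0']
  · have e : n * m * xg hC β a * (n * m)⁻¹ = n * (m * xg hC β a * m⁻¹) * n⁻¹ := by group
    rw [e, h3', h3, mul_assoc]
    rfl
  · have e : (n * m).1 v = n.1 (m.1 v) := rfl
    rw [e]
    show (n.1 (m.1 v)).2 (s (s' β)) = _
    rw [h4, h4', mul_assoc]

theorem ms_wg (hC : SimplyLaced C) {S : Subring (FF K)} (β : Rt C) {c : FF K}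
    (hc : c ≠ 0 ∧ c ∈ S ∧ c⁻¹ ∈ S) : MonoS hC S (wg hC β c) := by
  classical
  have hRC : RelCStmt := H22.relC
  have hW : RelWStmt := H22.relW
  have hc0 := hc.1
  set cf : Rt C → FF K := fun γ => if ip C β.1 γ.1 = 2 then (c ^ 2)⁻¹
    else if ip C β.1 γ.1 = 1 then c⁻¹ * ((eps C β.1 γ.1 : ℤ) : FF K)
    else if ip C β.1 γ.1 = 0 then 1
    else if ip C β.1 γ.1 = -1 then c * ((eps C β.1 γ.1 : ℤ) : FF K) else c ^ 2 with hcf
  have he : ∀ γ : Rt C, ((eps C β.1 γ.1 : ℤ) : FF K) ≠ 0 ∧ ((eps C β.1 γ.1 : ℤ) : FF K) ∈ S ∧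
      ((eps C β.1 γ.1 : ℤ) : FF K)⁻¹ ∈ S := by
    intro γ
    rcases eps_cases (C := C) β.1 γ.1 with h | h <;> rw [h]
    · simp
    · refine ⟨by simp, intCast_mem S _, ?_⟩
      have : (((-1 : ℤ) : FF K))⁻¹ = ((-1 : ℤ) : FF K) := by
        push_cast
        rw [inv_neg, inv_one]
      rw [this]
      exact intCast_mem S _
  have hcases : ∀ γ : Rt C, ip C β.1 γ.1 = 2 ∨ ip C β.1 γ.1 = 1 ∨ ip C β.1 γ.1 = 0 ∨
      ip C β.1 γ.1 = -1 ∨ ip C β.1 γ.1 = -2 := by
    intro γ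
    have := hC.ip_bound β γ
    omega
  have hnz : ∀ γ, cf γ ≠ 0 ∧ cf γ ∈ S ∧ (cf γ)⁻¹ ∈ S := by
    intro γ
    have hc2 : c ^ 2 ≠ 0 ∧ c ^ 2 ∈ S ∧ (c ^ 2)⁻¹ ∈ S := by
      rw [pow_two]
      exact un_mul hc hc
    simp only [hcf]
    split_ifs
    · exact un_inv hc2
    · exact un_mul (un_inv hc) (he γ)
    · exact ⟨one_ne_zero, one_mem _, by rw [inv_one]; exact one_mem _⟩
    · exact un_mul hc (he γ)
    · exact hc2
  refine ⟨rfA hC β, rf hC β, cf, cf, fun γ => rfl, hnz, hnz, ?_, ?_, ?_⟩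
  · intro γ a
    obtain ⟨q1, q2, q3, q4, q5⟩ := hRC r C hC K β c hc0 a
    rcases hcases γ with h | h | h | h | h
    · have e : γ = β := (hC.ip_eq_two h).symm
      subst e
      have e2 : rf hC γ γ = γ.neg := by
        apply Subtype.ext
        rw [rf_val, Rt.neg_val, γ.2]
        module
      rw [q1, e2]
      simp only [hcf, h, if_true]
    · have e2 := q3 γ (rf hC β γ) h (by rw [rf_val, h, one_smul])
      rw [e2]
      simp only [hcf, h]
      norm_num
    · have e1 : rf hC β γ = γ := by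
        apply Subtype.ext
        rw [rf_val, h, zero_smul, sub_zero]
      rw [q5 γ h, e1]
      simp only [hcf, h]
      norm_num
    · have e2 := q4 γ (rf hC β γ) h (by rw [rf_val, h, neg_smul, one_smul, sub_neg_eq_add])
      rw [e2]
      simp only [hcf, h]
      norm_num
    · have e : γ = β.neg := hC.ip_eq_neg_two h
      subst e
      have e2 : rf hC β β.neg = β := by
        apply Subtype.ext
        rw [rf_val, h, Rt.neg_val]
        module
      rw [q2, e2]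
      simp only [hcf, h]
      norm_num
  · intro v γ
    obtain ⟨-, q1, q2, q3, q4, q5⟩ := hW r C hC K β c hc0 v
    rcases hcases γ with h | h | h | h | h
    · have e : γ = β := (hC.ip_eq_two h).symm
      subst e
      have e2 : rf hC γ γ = γ.neg := by
        apply Subtype.ext
        rw [rf_val, Rt.neg_val, γ.2]
        module
      rw [e2, q2]
      simp only [hcf, h, if_true]
    · have e3 : (rf hC β γ).1 = γ.1 - β.1 := by rw [rf_val, h, one_smul]
      have e2 := q4 (rf hC β γ) (by rw [e3, ip_sub_right, h, β.2]; norm_num)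
      rw [e2, e3, sub_add_cancel, crd_root]
      simp only [hcf, h]
      norm_num
    · have e1 : rf hC β γ = γ := by
        apply Subtype.ext
        rw [rf_val, h, zero_smul, sub_zero]
      rw [e1, q5 γ h]
      simp only [hcf, h]
      norm_num
    · have e3 : (rf hC β γ).1 = γ.1 + β.1 := by
        rw [rf_val, h, neg_smul, one_smul, sub_neg_eq_add]
      have e2 := q3 (rf hC β γ) (by rw [e3, ip_add_right, h, β.2]; norm_num)
      rw [e2, e3, add_sub_cancel_right, crd_root]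
      simp only [hcf, h]
      norm_num
    · have e : γ = β.neg := hC.ip_eq_neg_two h
      subst e
      have e2 : rf hC β β.neg = β := by
        apply Subtype.ext
        rw [rf_val, h, Rt.neg_val]
        module
      rw [e2, q1]
      simp only [hcf, h]
      norm_num
  · intro v hv
    funext i
    rw [(hW r C hC K β c hc0 v).1 i]
    simp [hv, pr]

theorem mem_US (hC : SimplyLaced C) {S : Subring (FF K)} {β : Rt C} (h1 : β.Pos) {a : FF K}
    (ha : a ∈ S) : xg hC β a ∈ US C S :=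
  Subgroup.subset_closure ⟨β, a, h1, ha, fun _ => rfl⟩

theorem UnS_le (S : Subring (FF K)) (i : Fin r) : (UnS C S i : Subgroup (grp C K)) ≤ US C S := by
  unfold UnS US
  apply Subgroup.closure_mono
  rintro g ⟨β, a, h1, -, h2, h3⟩
  exact ⟨β, a, h1, h2, h3⟩

theorem US_le (S : Subring (FF K)) : (US C S : Subgroup (grp C K)) ≤ GS C S := by
  unfold US GS
  apply Subgroup.closure_mono
  rintro g ⟨β, a, -, h2, h3⟩
  exact ⟨β, a, h2, h3⟩

theorem ms_inv_conj (hC : SimplyLaced C) {S : Subring (FF K)} {n : grp C K} (hn : MonoS hC S n)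
    (β : Rt C) :
    ∃ γ : Rt C, ∀ a ∈ S, (∃ a' ∈ S, n⁻¹ * xg hC β a * n = xg hC γ a') ∧
      ∃ a' ∈ S, n⁻¹ * xg hC β.neg a * n = xg hC γ.neg a' := by
  obtain ⟨σ, s, c, d, h0, h1, -, h3, -, -⟩ := hn
  have hneg : ∀ γ, s γ.neg = (s γ).neg := by
    intro γ
    apply Subtype.ext
    rw [Rt.neg_val, h0, h0, Rt.neg_val, map_neg]
  refine ⟨s.symm β, fun a ha => ⟨⟨(c (s.symm β))⁻¹ * a, mul_mem (h1 _).2.2 ha, ?_⟩,
    ⟨(c (s.symm β).neg)⁻¹ * a, mul_mem (h1 _).2.2 ha, ?_⟩⟩⟩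
  · have := h3 (s.symm β) ((c (s.symm β))⁻¹ * a)
    rw [Equiv.apply_symm_apply, mul_inv_cancel_left₀ (h1 _).1] at this
    rw [← this]
    group
  · have := h3 (s.symm β).neg ((c (s.symm β).neg)⁻¹ * a)
    rw [hneg, Equiv.apply_symm_apply, mul_inv_cancel_left₀ (h1 _).1] at this
    rw [← this]
    group

end

theorem brus (hG : GenSStmt) (hU : UpsSStmt) (hJ : JgrStmt) (hL : LocStmt) : BruSStmt := by
  intro r C hC K _ P hP g hg
  have hRC : RelCStmt := H22.relC
  have hH : RelHStmt := H22.relH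
  have hS : RootSignStmt := H22.hRS
  obtain ⟨-, hJ1, hJm, hJc, hJx⟩ := hJ r C hC K P hP
  obtain ⟨-, -, hL3, -, -⟩ := hL K P hP
  set S := loc K P with hSdef
  have hGS : ∀ β : Rt C, ∀ a ∈ S, xg hC β a ∈ GS C S := fun β a ha =>
    Subgroup.subset_closure ⟨β, a, ha, fun _ => rfl⟩
  have hwGS : ∀ β : Rt C, wg hC β (1 : FF K) ∈ GS C S := by
    intro β
    unfold wg
    rw [inv_one]
    exact mul_mem (mul_mem (hGS β 1 (one_mem S)) (hGS β.neg 1 (one_mem S)))
      (hGS β 1 (one_mem S))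
  let Q : grp C K → Prop := fun g => ∃ j u n u', InJ P j ∧ u ∈ US C S ∧ MonoS hC S n ∧
    u' ∈ US C S ∧ g = j * u * n * u'
  -- left multiplication by the root elements
  have q1 : ∀ i, ∀ a ∈ S, ∀ x, Q x → Q (xg hC (hC.sr i) a * x) := by
    rintro i a ha _ ⟨j, u, n, u', hj, hu, hn, hu', rfl⟩
    exact ⟨_, _, n, u', hJc _ (hGS (hC.sr i) a ha) j hj, mul_mem (mem_US hC (sr_pos hC i) ha) hu,
      hn, hu', by group⟩
  have q2 : ∀ i, ∀ x, Q x → Q (wg hC (hC.sr i) (1 : FF K) * x) := by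
    rintro i _ ⟨j, u, n, u', hj, hu, hn, hu', rfl⟩
    set w := wg hC (hC.sr i) (1 : FF K) with hw
    -- it is enough to treat `w * (u * n * u')`
    suffices h : Q (w * (u * n * u')) by
      obtain ⟨j2, u2, n2, u2', hj2, hu2, hn2, hu2', e⟩ := h
      refine ⟨w * j * w⁻¹ * j2, u2, n2, u2', hJm _ _ (hJc _ (hwGS _) j hj) hj2, hu2, hn2, hu2', ?_⟩
      have e2 : w * (j * u * n * u') = w * j * w⁻¹ * (w * (u * n * u')) := by group
      rw [e2, e]
      group
    obtain ⟨u1, u2, -⟩ := hU r C hC K S i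
    obtain ⟨b, hb, v, hv, rfl⟩ := u1 u hu
    have h3 := UnS_le (C := C) (K := K) S i (u2 v hv)
    rw [← hw] at h3
    have hwm : MonoS hC S w := ms_wg hC _ ⟨one_ne_zero, one_mem _, by rw [inv_one]; exact one_mem _⟩
    obtain ⟨γ, hγ⟩ := ms_inv_conj hC hn (hC.sr i)
    rcases (hS r C hC).1 γ with hp | hp
    · obtain ⟨a', ha', he'⟩ := (hγ b hb).1
      refine ⟨1, _, w * n, xg hC γ a' * u', hJ1, h3, ms_mul hC hwm hn,
        mul_mem (mem_US hC hp ha') hu', ?_⟩
      rw [← he']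
      group
    · have e2 : w * xg hC (hC.sr i) b = xg hC (hC.sr i).neg b * w := by
        have := (hRC r C hC K (hC.sr i) 1 one_ne_zero b).1
        rw [one_pow, inv_one, one_mul, ← hw] at this
        rw [← this]
        group
      rcases hL3 b hb with ⟨hb0, hbi⟩ | hb1
      · have hbu : b⁻¹ ≠ 0 ∧ b⁻¹ ∈ S ∧ b⁻¹⁻¹ ∈ S := ⟨inv_ne_zero hb0, hbi, by rwa [inv_inv]⟩
        -- x_{-i}(b) = x_i(-1/b) w_i(1/b) x_i(-1/b)
        have e1 : xg hC (hC.sr i).neg b = xg hC (hC.sr i) (-b⁻¹) * wg hC (hC.sr i) b⁻¹ *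
            xg hC (hC.sr i) (-b⁻¹) := by
          unfold wg
          rw [inv_inv, ← xg_inv]
          group
        have e3 : w * xg hC (hC.sr i).neg (-b⁻¹) = xg hC (hC.sr i) (-b⁻¹) * w := by
          have := (hRC r C hC K (hC.sr i) 1 one_ne_zero (-b⁻¹)).2.1
          rw [one_pow, one_mul, ← hw] at this
          rw [← this]
          group
        obtain ⟨a', ha', he'⟩ := (hγ (-b⁻¹) (neg_mem hbi)).2
        refine ⟨1, _, wg hC (hC.sr i) b⁻¹ * (w * n), xg hC γ.neg a' * u', hJ1,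
          mul_mem h3 (mem_US hC (sr_pos hC i) (neg_mem hbi)),
          ms_mul hC (ms_wg hC _ hbu) (ms_mul hC hwm hn), mul_mem (mem_US hC hp ha') hu', ?_⟩
        rw [← he']
        calc w * (v * xg hC (hC.sr i) b * n * u')
            = (w * v * w⁻¹) * (w * xg hC (hC.sr i) b) * n * u' := by group
          _ = (w * v * w⁻¹) * xg hC (hC.sr i) (-b⁻¹) * wg hC (hC.sr i) b⁻¹ *
              (xg hC (hC.sr i) (-b⁻¹) * w) * n * u' := by
              rw [e2, e1]; group
          _ = _ := by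
              rw [← e3]; group
      · refine ⟨_, _, w * n, u', hJc _ (US_le S h3) _ (hJx (hC.sr i).neg b hb1), h3,
          ms_mul hC hwm hn, hu', ?_⟩
        calc w * (v * xg hC (hC.sr i) b * n * u')
            = (w * v * w⁻¹) * (w * xg hC (hC.sr i) b) * n * u' := by group
          _ = (w * v * w⁻¹) * (xg hC (hC.sr i).neg b * w) * n * u' := by rw [e2]
          _ = _ := by group
  rw [hG r C hC K S] at hg
  have key : (∀ x, Q x → Q (g * x)) ∧ (∀ x, Q x → Q (g⁻¹ * x)) := by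
    induction hg using Subgroup.closure_induction with
    | mem g hg =>
      rcases hg with ⟨i, a, ha, rfl⟩ | ⟨i, rfl⟩
      · refine ⟨q1 i a ha, ?_⟩
        rw [xg_inv]
        exact q1 i (-a) (neg_mem ha)
      · refine ⟨q2 i, ?_⟩
        rw [wg_inv_three hH]
        intro x hx
        rw [mul_assoc, mul_assoc]
        exact q2 i _ (q2 i _ (q2 i _ hx))
    | one => simp
    | mul a b _ _ ha hb =>
      refine ⟨fun x hx => ?_, fun x hx => ?_⟩
      · rw [mul_assoc]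
        exact ha.1 _ (hb.1 _ hx)
      · rw [mul_inv_rev, mul_assoc]
        exact hb.2 _ (ha.2 _ hx)
    | inv a _ ha => exact ⟨ha.2, by rw [inv_inv]; exact ha.1⟩
  have h1 : Q 1 := ⟨1, 1, 1, 1, hJ1, one_mem _, ms_one hC S, one_mem _, by simp⟩
  have := key.1 1 h1
  rwa [mul_one] at this

end Pool.Agent.DEN.H222
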