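import Pool.Agent.Helper22_DEN2.Asm
import Pool.Agent.Helper22_DEN.Final

open scoped BigOperators

namespace Pool.Agent.DEN.H222

open Pool.Agent.DEN

theorem mul3 {n a b c d e f : ℝ} (h : n ≤ a * b * c) (hb : b ≤ d * e) (ha : 0 ≤ a) (hc : 0 ≤ c)
    (hf : f = a * d * c) : n ≤ f * e := by
  subst hf
  calc n ≤ a * b * c := h
    _ ≤ a * (d * e) * c := by gcongr
    _ = a * d * c * e := by ring

/-- The final statement of the second part. -/
theorem final2 (hLowS : LowStmt)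
    {r : ℕ} (hr : 0 < r) (C : Matrix (Fin r) (Fin r) ℤ) (hC : SimplyLaced C)
    (K : Type) [Field K] [Finite K] (P₀ N : Polynomial K) (hP₀ : Irreducible P₀) (hN : N ≠ 0)
    (hPN : P₀ ^ 4 ∣ N) :
    (∀ f : XX C K → ℂ, f ∈ Submodule.span ℂ {f : XX C K → ℂ | IsCusp N f} ↔ IsCusp N f) ∧
    Module.Finite ℂ (Submodule.span ℂ {f : XX C K → ℂ | IsCusp N f}) ∧
    (cong C K 1 N).relIndex (arith C K 1) ≤
      Nat.card K ^ ((2 * P₀.natDegree + 1) * (r + Nat.card (Rt C)) ^ 2) *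
        Module.finrank ℂ (Submodule.span ℂ {f : XX C K → ℂ | IsCusp N f}) ∧
    ∀ (n : ℕ) (f : Fin n → XX C K → ℂ), (∀ j, IsCusp N (f j)) →
      (∀ i j, petersson N (f i) (f j) = if i = j then 1 else 0) →
      ∀ (lam : Fin n → ℂ) (R : ℕ), 0 < R → ∀ τ σ : ℝ, 0 < τ → 0 ≤ σ →
      (∀ κ : grp C K → ℂ, HeckeInf κ R → (∀ j, EigenInf κ (lam j) (f j)) →
        NormLE (maxK C K) κ τ → (∀ j, (Nat.card K : ℝ) ^ (σ * R) * τ ≤ ‖lam j‖) →
        (n : ℝ) ≤ (N.natDegree : ℝ) ^ r *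
          (Nat.card K : ℝ) ^ ((2 * P₀.natDegree + 1) * (r + Nat.card (Rt C)) ^ 2) *
          (Nat.card K : ℝ) ^ (-(σ * ((N.natDegree : ℝ) - 2 * R))) *
          Module.finrank ℂ (Submodule.span ℂ {f : XX C K → ℂ | IsCusp N f})) ∧
      (∀ P : Polynomial K, 0 < P.natDegree → IsCoprime P N → ∀ κ : arith C K P → ℂ,
        HeckeFin P κ R → (∀ j, EigenFin P N κ (lam j) (f j)) →
        NormLE ((arith C K 1).subgroupOf (arith C K P)) κ τ →
        (∀ j, (Nat.card K : ℝ) ^ (σ * (R * P.natDegree : ℕ)) * τ ≤ ‖lam j‖) →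
        (n : ℝ) ≤ (N.natDegree : ℝ) ^ r *
          (Nat.card K : ℝ) ^ ((2 * P₀.natDegree + 1) * (r + Nat.card (Rt C)) ^ 2) *
          (Nat.card K : ℝ) ^ (-(σ * ((N.natDegree : ℝ) - 2 * (R * P.natDegree : ℕ)))) *
          Module.finrank ℂ (Submodule.span ℂ {f : XX C K → ℂ | IsCusp N f})) := by
  obtain ⟨h1, h2, -⟩ := hFdm r C hC K N hN
  have h3 := hLowS r C hC K P₀ N hP₀.prime hN hPN
  refine ⟨h1, h2, h3, ?_⟩
  intro n f hcusp horth lam R hR τ σ hτ hσ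
  have h4 := H22.final H22.hBir H22.hVan H22.hBdg H22.hCnt H22.hThi H22.hThf H22.hTrf H26.ker hr C
    hC K N hN n f hcusp horth lam R hR
  have h5 : (((cong C K 1 N).relIndex (arith C K 1) : ℕ) : ℝ) ≤
      (Nat.card K : ℝ) ^ ((2 * P₀.natDegree + 1) * (r + Nat.card (Rt C)) ^ 2) *
        (Module.finrank ℂ (Submodule.span ℂ {f : XX C K → ℂ | IsCusp N f}) : ℝ) := by
    exact_mod_cast h3
  refine ⟨fun κ hκ hlam hnorm hl => ?_, fun P hP hPN κ hκ hlam hnorm hl => ?_⟩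
  · have h6 := (h4.1 κ hκ hlam).2 τ σ hτ hσ hnorm hl
    exact mul3 h6 h5 (by positivity) (by positivity) rfl
  · have h6 := (h4.2 P hP hPN κ hκ hlam).2 τ σ hτ hσ hnorm hl
    exact mul3 h6 h5 (by positivity) (by positivity) rfl

end Pool.Agent.DEN.H222
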