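import Pool.Agent.Helper22_DEN.Pub

/-!
# The space of the cusp forms of level `N`
-/

open scoped BigOperators

namespace Pool.Agent.DEN.Pub

open Pool.Agent.DEN

section
variable {r : ℕ} (C : Matrix (Fin r) (Fin r) ℤ) {K : Type} [Field K]

/-- The space of the cusp forms of level `N`: the span of the set of the cusp forms (which is already
a subspace). -/
def cuspSpace (N : Polynomial K) : Submodule ℂ (X C K → ℂ) :=
  Submodule.span ℂ {f : X C K → ℂ | IsCusp N f}

/-- The dimension of the space of the cusp forms of level `N`. -/
noncomputable def dimCusp (N : Polynomial K) : ℕ := Module.finrank ℂ (cuspSpace C N)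

/-- The dimension `rank + number of roots` of the group. -/
noncomputable def dimG : ℕ := r + Nat.card (Rt C)

end

end Pool.Agent.DEN.Pub
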