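import Pool.Agent.Helper22_DEN.Asm

/-!
# Lower bound for the number of cusp forms: statements of the modules
-/

open scoped BigOperators

namespace Pool.Agent.DEN

/-! ## The Lie bracket -/

section
variable {r : ℕ} {C : Matrix (Fin r) (Fin r) ℤ} {R : Type} [CommRing R]

/-- The Lie bracket of the Chevalley order: `[e_μ, e_ν] = ε(μ, ν) e_{μ + ν}`,
`[e_μ, e_{-μ}] = -h_μ`, `[h, e_μ] = (h, μ) e_μ`. -/
noncomputable def br (v w : LieV C R) : LieV C R :=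
  (fun i => -∑ᶠ μ : Rt C, v.2 μ * w.2 μ.neg * ((μ.1 i : ℤ) : R),
   fun γ => (∑ᶠ μ : Rt C, if ip C μ.1 γ.1 = 1 then
        ((eps C μ.1 (γ.1 - μ.1) : ℤ) : R) * v.2 μ * crd w (γ.1 - μ.1) else 0)
      + pr v γ.1 * w.2 γ - v.2 γ * pr w γ.1)

end

/-- EQ1: the Jacobi identity for a root vector. -/
def Eq1Stmt : Prop :=
  ∀ (r : ℕ) (C : Matrix (Fin r) (Fin r) ℤ) (_ : SimplyLaced C) (R : Type) [CommRing R]
    (β : Rt C) (e : LieV C R), e.1 = 0 → e.2 β = 1 → (∀ γ, γ ≠ β → e.2 γ = 0) →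
    ∀ v w : LieV C R, br e (br v w) = br (br e v) w + br v (br e w)

/-- EQV: the group acts by automorphisms of the bracket. -/
def EqvStmt : Prop :=
  ∀ (r : ℕ) (C : Matrix (Fin r) (Fin r) ℤ) (_ : SimplyLaced C) (K : Type) [Field K]
    (g : grp C K) (v w : LieV C (FF K)), g.1 (br v w) = br (g.1 v) (g.1 w)

/-! ## The local ring at an irreducible polynomial -/

section
variable (K : Type) [Field K]

/-- The local ring of `K[t]` at `P`, inside `F`. -/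
noncomputable def loc (P : Polynomial K) : Subring (FF K) :=
  Subring.closure (Set.range (polyL K) ∪ {a | ∃ s : Polynomial K, ¬ P ∣ s ∧ a = (polyL K s)⁻¹})

/-- `P ^ k` times the local ring at `P`. -/
def lp (P : Polynomial K) (k : ℕ) : Set (FF K) := {a | ∃ b ∈ loc K P, a = polyL K P ^ k * b}

end

/-- LOC: the local ring. -/
def LocStmt : Prop :=
  ∀ (K : Type) [Field K] (P : Polynomial K), Prime P →
    (∀ a : FF K, a ∈ loc K P ↔ ∃ p s : Polynomial K, ¬ P ∣ s ∧ polyL K s * a = polyL K p) ∧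
    (∀ a ∈ ringA K 1, a ∈ loc K P) ∧
    (∀ b ∈ loc K P, (b ≠ 0 ∧ b⁻¹ ∈ loc K P) ∨ b ∈ lp K P 1) ∧
    (∀ (p : Polynomial K) (k : ℕ), polyL K p ∈ lp K P k → P ^ k ∣ p) ∧
    (∀ (a : FF K) (k : ℕ), a ∈ ringA K 1 → a ∈ lp K P k →
      ∃ b ∈ ringA K 1, a = polyL K P ^ k * b)

/-! ## Groups with entries in a subring -/

section
variable {r : ℕ} (C : Matrix (Fin r) (Fin r) ℤ) {K : Type} [Field K]

/-- The group generated by the root elements with entries in `S`. -/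
noncomputable def GS (S : Subring (FF K)) : Subgroup (grp C K) :=
  Subgroup.closure {g | ∃ (β : Rt C) (a : FF K), a ∈ S ∧ ∀ v, g.1 v = rootMap β a v}

/-- The unipotent group generated by the positive root elements with entries in `S`. -/
noncomputable def US (S : Subring (FF K)) : Subgroup (grp C K) :=
  Subgroup.closure {g | ∃ (β : Rt C) (a : FF K), β.Pos ∧ a ∈ S ∧ ∀ v, g.1 v = rootMap β a v}

/-- The same for the positive roots `≠ α_i`. -/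
noncomputable def UnS (S : Subring (FF K)) (i : Fin r) : Subgroup (grp C K) :=
  Subgroup.closure {g | ∃ (β : Rt C) (a : FF K), β.Pos ∧ β.1 ≠ al i ∧ a ∈ S ∧
    ∀ v, g.1 v = rootMap β a v}

variable {C}

/-- `g ≡ 1 + P ad(z)` modulo `P ^ 2`. -/
def InJ (P : Polynomial K) (g : grp C K) : Prop :=
  g ∈ GS C (loc K P) ∧ ∃ z : LieV C (FF K), Cd (loc K P) z ∧
    ∀ w, Cd (loc K P) w → Cd (lp K P 2) (g.1 w - w - polyL K P • br z w)

/-- Monomial elements with unit entries in `S`. -/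
def MonoS (hC : SimplyLaced C) (S : Subring (FF K)) (n : grp C K) : Prop :=
  ∃ (σ : (Fin r → ℤ) ≃+ (Fin r → ℤ)) (s : Equiv.Perm (Rt C)) (c d : Rt C → FF K),
    (∀ β, (s β).1 = σ β.1) ∧
    (∀ β, c β ≠ 0 ∧ c β ∈ S ∧ (c β)⁻¹ ∈ S) ∧ (∀ β, d β ≠ 0 ∧ d β ∈ S ∧ (d β)⁻¹ ∈ S) ∧
    (∀ β a, n * xg hC β a * n⁻¹ = xg hC (s β) (c β * a)) ∧
    (∀ v β, (n.1 v).2 (s β) = d β * v.2 β) ∧
    (∀ v : LieV C (FF K), v.1 = 0 → (n.1 v).1 = 0)

end

/-- GENS: generators. -/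
def GenSStmt : Prop :=
  ∀ (r : ℕ) (C : Matrix (Fin r) (Fin r) ℤ) (hC : SimplyLaced C) (K : Type) [Field K]
    (S : Subring (FF K)),
    GS C S = Subgroup.closure ({g : grp C K | ∃ (i : Fin r) (a : FF K), a ∈ S ∧
        g = xg hC (hC.sr i) a} ∪ {g : grp C K | ∃ i : Fin r, g = wg hC (hC.sr i) (1 : FF K)})

/-- UPSS: the unipotent group relative to the simple root `α_i`, with entries in `S`. -/
def UpsSStmt : Prop :=
  ∀ (r : ℕ) (C : Matrix (Fin r) (Fin r) ℤ) (hC : SimplyLaced C) (K : Type) [Field K]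
    (S : Subring (FF K)) (i : Fin r),
    (∀ u ∈ US C S, ∃ b ∈ S, ∃ u' ∈ UnS C S i, u = u' * xg hC (hC.sr i) b) ∧
    (∀ u ∈ UnS C S i,
      wg hC (hC.sr i) (1 : FF K) * u * (wg hC (hC.sr i) (1 : FF K))⁻¹ ∈ UnS C S i) ∧
    (∀ u ∈ UnS C S i, ∀ a ∈ S,
      xg hC (hC.sr i) a * u * (xg hC (hC.sr i) a)⁻¹ ∈ UnS C S i)

/-- JGR: the elements of `J` (from EQV, LOC). -/
def JgrStmt : Prop :=
  ∀ (r : ℕ) (C : Matrix (Fin r) (Fin r) ℤ) (hC : SimplyLaced C) (K : Type) [Field K]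
    (P : Polynomial K), Prime P →
    (∀ g ∈ GS C (loc K P), ∀ w, Cd (loc K P) w → Cd (loc K P) (g.1 w)) ∧
    InJ P (1 : grp C K) ∧ (∀ g h : grp C K, InJ P g → InJ P h → InJ P (g * h)) ∧
    (∀ x ∈ GS C (loc K P), ∀ g, InJ P g → InJ P (x * g * x⁻¹)) ∧
    (∀ (β : Rt C) (b : FF K), b ∈ lp K P 1 → InJ P (xg hC β b))

/-- BRUS: Bruhat decomposition over the local ring, modulo `J` (from GENS, UPSS, JGR, LOC and the
relations; as BRU). -/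
def BruSStmt : Prop :=
  ∀ (r : ℕ) (C : Matrix (Fin r) (Fin r) ℤ) (hC : SimplyLaced C) (K : Type) [Field K]
    (P : Polynomial K), Prime P → ∀ g ∈ GS C (loc K P),
    ∃ j u n u', InJ P j ∧ u ∈ US C (loc K P) ∧ MonoS hC (loc K P) n ∧ u' ∈ US C (loc K P) ∧
      g = j * u * n * u'

/-- RTC: dominant roots. -/
def RtcStmt : Prop :=
  ∀ (r : ℕ) (C : Matrix (Fin r) (Fin r) ℤ) (hC : SimplyLaced C),
    (∀ j, ∃ θ : Rt C, IsDom C θ.1 ∧ 0 < θ.1 j) ∧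
    (∀ θ ν : Rt C, IsDom C θ.1 → ν.Pos → 0 ≤ ip C ν.1 θ.1) ∧
    (∀ θ ν : Rt C, IsDom C θ.1 → (∀ i, θ.1 i ≤ ν.1 i) → ν = θ) ∧
    (∀ θ : Rt C, IsDom C θ.1 → θ.Pos) ∧
    (∀ θ θ' : Rt C, IsDom C θ.1 → IsDom C θ'.1 → θ ≠ θ' → ip C θ.1 θ'.1 = 0) ∧
    (∀ (K : Type) [Field K] (θ : Rt C), ∃ i, ((θ.1 i : ℤ) : K) ≠ 0) ∧
    (∀ (σ : (Fin r → ℤ) ≃+ (Fin r → ℤ)) (s : Equiv.Perm (Rt C)), (∀ β, (s β).1 = σ β.1) →
      ∀ i, ∃ β : Rt C, 0 < β.1 i ∧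
        ((∃ j, s β = hC.sr j) ∨ ∃ θ : Rt C, IsDom C θ.1 ∧ s β = θ.neg))

section
variable {r : ℕ} {C : Matrix (Fin r) (Fin r) ℤ} {K : Type} [Field K]

/-- The affine generic functional. -/
noncomputable def yf (hC : SimplyLaced C) (P : Polynomial K) (ix : Rt C → Fin r)
    (v : LieV C (FF K)) : FF K :=
  -(polyL K P * ∑ j, v.2 (hC.sr j)) +
    ∑ᶠ θ : {θ : Rt C // IsDom C θ.1}, ((θ.1.1 (ix θ.1) : ℤ) : FF K) * v.2 θ.1.neg

end

/-- ELL: the affine generic functional does not vanish modulo `P ^ 2` on the nilradical of any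
proper parabolic subalgebra (from BRUS, RTC, LOC, EQV). -/
def EllStmt : Prop :=
  ∀ (r : ℕ) (C : Matrix (Fin r) (Fin r) ℤ) (hC : SimplyLaced C) (K : Type) [Field K]
    (P : Polynomial K), Prime P → ∀ ix : Rt C → Fin r,
    (∀ θ : Rt C, ((θ.1 (ix θ) : ℤ) : K) ≠ 0) →
    ∀ γ ∈ GS C (loc K P), ∀ i : Fin r, ∃ β : Rt C, 0 < β.1 i ∧
      yf hC P ix (γ.1 (EE β)) ∉ lp K P 2

/-- CHR: existence of the character (from ELL, EQV, LOC, RTC, NRM). -/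
def ChrStmt : Prop :=
  ∀ (r : ℕ) (C : Matrix (Fin r) (Fin r) ℤ) (_ : SimplyLaced C) (K : Type) [Field K] [Finite K]
    (P M : Polynomial K), Prime P → M ≠ 0 → P ^ 2 ∣ M →
    ∃ ψ : grp C K → ℂ,
      (∀ a ∈ cong C K 1 M, ∀ b ∈ cong C K 1 M, ψ (a * b) = ψ a * ψ b) ∧
      (∀ a ∈ cong C K 1 M, ‖ψ a‖ = 1) ∧
      (∀ a ∈ cong C K 1 (M * P ^ 2), a ∈ cong C K 1 M ∧ ψ a = 1) ∧
      (∀ γ ∈ arith C K 1, ∀ i, ∃ u ∈ rad C K i, u ∈ cong C K 1 M ∧ ψ (γ * u * γ⁻¹) ≠ 1)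

/-- CSP: equivariant functions are cusp forms (from NRM). -/
def CspStmt : Prop :=
  ∀ (r : ℕ) (C : Matrix (Fin r) (Fin r) ℤ) (_ : SimplyLaced C) (K : Type) [Field K]
    (M N : Polynomial K), M ≠ 0 → N ≠ 0 → ∀ ψ : grp C K → ℂ,
      (∀ a ∈ cong C K 1 M, ∀ b ∈ cong C K 1 M, ψ (a * b) = ψ a * ψ b) →
      (∀ a ∈ cong C K 1 N, a ∈ cong C K 1 M ∧ ψ a = 1) →
      (∀ γ ∈ arith C K 1, ∀ i, ∃ u ∈ rad C K i, u ∈ cong C K 1 M ∧ ψ (γ * u * γ⁻¹) ≠ 1) →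
    ∀ f : XX C K → ℂ, (∀ γ ∈ cong C K 1 M, ∀ x, f (γ • x) = ψ γ * f x) → IsCusp N f

/-- FRE: `Γ(M)` acts freely on the orbit of the base point if `M` is not constant (from FLD, NRM,
BDG). -/
def FreStmt : Prop :=
  ∀ (r : ℕ) (C : Matrix (Fin r) (Fin r) ℤ) (_ : SimplyLaced C) (K : Type) [Field K]
    (M : Polynomial K), 0 < M.natDegree → ∀ γ ∈ arith C K 1, ∀ g ∈ cong C K 1 M,
    g • (γ • pt (1 : grp C K)) = γ • pt (1 : grp C K) → g = 1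

/-- FAM: an orthonormal family of equivariant functions (abstract form). -/
def FamStmt : Prop :=
  ∀ (G X : Type) [Group G] [MulAction G X] (Γ M N : Subgroup G) (x₀ : X), N ≤ M → M ≤ Γ →
    (∀ g ∈ Γ, ∀ γ ∈ N, g * γ * g⁻¹ ∈ N) → (∀ g ∈ Γ, ∀ γ ∈ M, g * γ * g⁻¹ ∈ M) →
    N.relIndex Γ ≠ 0 →
    Finite (MulAction.stabilizer Γ x₀) →
    (∀ γ ∈ Γ, ∀ g ∈ M, g • (γ • x₀) = γ • x₀ → g = 1) →
    ∀ ψ : G → ℂ, (∀ a ∈ M, ∀ b ∈ M, ψ (a * b) = ψ a * ψ b) → (∀ a ∈ M, ‖ψ a‖ = 1) →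
    (∀ a ∈ N, ψ a = 1) →
    ∃ (n : ℕ) (f : Fin n → X → ℂ),
      M.relIndex Γ ≤ Nat.card (MulAction.stabilizer Γ x₀) * n ∧
      (∀ j, ∀ γ ∈ M, ∀ x, f j (γ • x) = ψ γ * f j x) ∧
      ∀ i j, ∑ᶠ o : MulAction.orbitRel.Quotient N X,
        (starRingEnd ℂ) (f i o.out) * f j o.out / Nat.card (MulAction.stabilizer N o.out)
          = if i = j then 1 else 0

/-- IDX: bounds for the indices (from FLD, NRM). -/
def IdxStmt : Prop :=
  ∀ (r : ℕ) (C : Matrix (Fin r) (Fin r) ℤ) (_ : SimplyLaced C) (K : Type) [Field K] [Finite K],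
    (∀ P M : Polynomial K, P ≠ 0 → M ≠ 0 → P ^ 2 ∣ M →
      (cong C K 1 (M * P ^ 2)).relIndex (cong C K 1 M) ≤
        Nat.card K ^ (2 * P.natDegree * (r + Nat.card (Rt C)) ^ 2)) ∧
    Nat.card (MulAction.stabilizer (arith C K 1) (pt (1 : grp C K))) ≤
      Nat.card K ^ (r + Nat.card (Rt C)) ^ 2

/-- FDM: the cusp forms are a finite dimensional space (from BIR, VAN, FIN, MAS), and an orthonormal
family is linearly independent. -/
def FdmStmt : Prop :=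
  ∀ (r : ℕ) (C : Matrix (Fin r) (Fin r) ℤ) (_ : SimplyLaced C) (K : Type) [Field K] [Finite K]
    (N : Polynomial K), N ≠ 0 →
    (∀ f : XX C K → ℂ, f ∈ Submodule.span ℂ {f : XX C K → ℂ | IsCusp N f} ↔ IsCusp N f) ∧
    Module.Finite ℂ (Submodule.span ℂ {f : XX C K → ℂ | IsCusp N f}) ∧
    ∀ (n : ℕ) (f : Fin n → XX C K → ℂ), (∀ j, IsCusp N (f j)) →
      (∀ i j, petersson N (f i) (f j) = if i = j then 1 else 0) →
      n ≤ Module.finrank ℂ (Submodule.span ℂ {f : XX C K → ℂ | IsCusp N f})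

/-- LOW: the lower bound (from CHR, CSP, FRE, FAM, IDX, FDM, NRM, FIN). -/
def LowStmt : Prop :=
  ∀ (r : ℕ) (C : Matrix (Fin r) (Fin r) ℤ) (_ : SimplyLaced C) (K : Type) [Field K] [Finite K]
    (P N : Polynomial K), Prime P → N ≠ 0 → P ^ 4 ∣ N →
    (cong C K 1 N).relIndex (arith C K 1) ≤
      Nat.card K ^ ((2 * P.natDegree + 1) * (r + Nat.card (Rt C)) ^ 2) *
        Module.finrank ℂ (Submodule.span ℂ {f : XX C K → ℂ | IsCusp N f})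

end Pool.Agent.DEN
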